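import Pool.Agent.Helper179.Transfer

open MeasureTheory Filter Topology

namespace Pool.Agent.Results.MP_3779a0_an.SiegelLDP

open Pool.Agent.Helper179.Eq Pool.Agent.Helper179.Siegel

/-- The elementary Henon map `(x, y) ↦ (p(x) - a y, x)`. -/
noncomputable def elementaryHenon (p : Polynomial ℂ) (a : ℂ) (z : ℂ × ℂ) : ℂ × ℂ :=
  (p.eval z.1 - a * z.2, z.1)

/-- Complex Henon maps: compositions `H₁ ∘ ⋯ ∘ H_k` (`k ≥ 1`) of elementary Henon maps with
polynomials of degree at least `2` and non-zero parameters `a`. -/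
inductive IsComplexHenon : (ℂ × ℂ → ℂ × ℂ) → Prop
  | elementary (p : Polynomial ℂ) (a : ℂ) (hp : 2 ≤ p.natDegree) (ha : a ≠ 0) :
      IsComplexHenon (elementaryHenon p a)
  | comp (p : Polynomial ℂ) (a : ℂ) (f : ℂ × ℂ → ℂ × ℂ) (hp : 2 ≤ p.natDegree) (ha : a ≠ 0)
      (hf : IsComplexHenon f) : IsComplexHenon (elementaryHenon p a ∘ f)

/-- The Birkhoff sum `S_n(g) = g + g∘f + ⋯ + g∘f^{n-1}`. -/
noncomputable def birkhoff (f : ℂ × ℂ → ℂ × ℂ) (g : ℂ × ℂ → ℝ) (n : ℕ) (x : ℂ × ℂ) : ℝ :=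
  ∑ j ∈ Finset.range n, g (f^[j] x)

/-- `g` is a coboundary: `g = χ∘f - χ` holds `μ`-almost everywhere for some `χ ∈ L²(μ)`. -/
def IsCoboundary (f : ℂ × ℂ → ℂ × ℂ) (μ : Measure (ℂ × ℂ)) (g : ℂ × ℂ → ℝ) : Prop :=
  ∃ χ : ℂ × ℂ → ℝ, MemLp χ 2 μ ∧ ∀ᵐ x ∂μ, g x = χ (f x) - χ x

/-- The large deviation property of Q1: there is a function `c` on a neighbourhood `(-r, r)` of
`0`, non-negative, strictly convex, with `c(t) = 0` only for `t = 0`, such that for every
sufficiently small `ε > 0` one has `(1/n) log μ(S_n(g)/n > ε) → -c(ε)`. Here the logarithm takes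
the value `-∞` at `0`. -/
def SatisfiesLDP (f : ℂ × ℂ → ℂ × ℂ) (μ : Measure (ℂ × ℂ)) (g : ℂ × ℂ → ℝ) : Prop :=
  ∃ (r : ℝ) (c : ℝ → ℝ), 0 < r ∧ StrictConvexOn ℝ (Set.Ioo (-r) r) c ∧
    (∀ t ∈ Set.Ioo (-r) r, 0 ≤ c t) ∧ (∀ t ∈ Set.Ioo (-r) r, c t = 0 → t = 0) ∧
    ∃ ε₀ : ℝ, 0 < ε₀ ∧ ∀ ε : ℝ, 0 < ε → ε < ε₀ →
      Tendsto (fun n : ℕ => ENNReal.log (μ {x | ε < birkhoff f g n x / n}) / (n : EReal)) atTop
        (𝓝 ((-c ε : ℝ) : EReal))

lemma conj_mapS_henon : IsComplexHenon (conj mapS) := by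
  have h : conj mapS =
      elementaryHenon (Polynomial.X ^ 2 + Polynomial.C bb * Polynomial.X) (1 / 4) := by
    funext z
    simp [mapS, elementaryHenon, conj]
  rw [h]
  refine IsComplexHenon.elementary _ _ ?_ (by norm_num)
  have : (Polynomial.X ^ 2 + Polynomial.C bb * Polynomial.X : Polynomial ℂ).natDegree = 2 := by
    compute_degree!
  omega

lemma birkhoff_conj (g : ℂ × ℂ → ℝ) (n : ℕ) (x : ℂ × ℂ) :
    birkhoff (conj mapS) (g ∘ Prod.swap) n x = bsum mapS g n x.swap := by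
  unfold birkhoff bsum
  apply Finset.sum_congr rfl
  intro j _
  rw [conj_iterate]
  simp

/-- If the Birkhoff sums escape to infinity in measure along a sequence of times, then the
observable is not a coboundary. -/
lemma not_coboundary {f : ℂ × ℂ → ℂ × ℂ} {μ : Measure (ℂ × ℂ)} {g : ℂ × ℂ → ℝ}
    (hμ : IsInvariantProb f μ) (n : ℕ → ℕ) (hn : Tendsto n atTop atTop)
    (hesc : Tendsto (fun J => μ {x | |birkhoff f g (n J) x| ≤ 1 * Real.sqrt (n J)}) atTop (𝓝 0)) :
    ¬ IsCoboundary f μ g := by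
  rintro ⟨χ, hχ, hg⟩
  have hp := hμ.1
  -- the sums telescope
  have htel : ∀ m : ℕ, ∀ᵐ x ∂μ, birkhoff f g m x = χ (f^[m] x) - χ x := by
    intro m
    induction m with
    | zero =>
      apply Eventually.of_forall
      intro x
      simp [birkhoff]
    | succ m ih =>
      have h1 : ∀ᵐ x ∂μ, g (f^[m] x) = χ (f (f^[m] x)) - χ (f^[m] x) :=
        (hμ.2.iterate m).quasiMeasurePreserving.ae hg
      filter_upwards [ih, h1] with x hx1 hx2
      unfold birkhoff at hx1 ⊢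
      rw [Finset.sum_range_succ, hx1, hx2, Function.iterate_succ_apply']
      ring
  have hχm := hχ.aestronglyMeasurable
  have hnull : ∀ k : ℕ, NullMeasurableSet {x | (k : ℝ) < |χ x|} μ := by
    intro k
    exact nullMeasurableSet_lt aemeasurable_const hχm.aemeasurable.abs
  have htend : Tendsto (fun k : ℕ => μ {x | (k : ℝ) < |χ x|}) atTop (𝓝 0) := by
    have h1 : Tendsto (fun k : ℕ => μ {x | (k : ℝ) < |χ x|}) atTop
        (𝓝 (μ (⋂ k : ℕ, {x | (k : ℝ) < |χ x|}))) := by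
      apply tendsto_measure_iInter_atTop hnull
      · intro k l hkl x hx
        simp only [Set.mem_ofPred_eq] at hx ⊢
        have : (k : ℝ) ≤ l := by exact_mod_cast hkl
        linarith
      · exact ⟨0, measure_ne_top _ _⟩
    have h2 : (⋂ k : ℕ, {x | (k : ℝ) < |χ x|}) = ∅ := by
      rw [Set.eq_empty_iff_forall_notMem]
      intro x hx
      rw [Set.mem_iInter] at hx
      obtain ⟨k, hk⟩ := exists_nat_ge |χ x|
      exact absurd (hx k) (not_lt.2 hk)
    rwa [h2, measure_empty] at h1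
  obtain ⟨k, hk⟩ := ((ENNReal.tendsto_nhds_zero.1 htend) (1 / 8) (by norm_num)).exists
  have hbig : ∀ᶠ J in atTop, 2 * (k : ℝ) ≤ Real.sqrt (n J) := by
    have h1 : Tendsto (fun J => Real.sqrt (n J)) atTop atTop :=
      Real.tendsto_sqrt_atTop.comp (tendsto_natCast_atTop_atTop.comp hn)
    exact h1.eventually_ge_atTop _
  obtain ⟨J, hJ1, hJ2⟩ := (hbig.and ((ENNReal.tendsto_nhds_zero.1 hesc) (1 / 8) (by norm_num))).exists
  -- cover the whole space
  have hcov : ∀ᵐ x ∂μ, x ∈ {x | |birkhoff f g (n J) x| ≤ 1 * Real.sqrt (n J)} ∪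
      ({x | (k : ℝ) < |χ x|} ∪ f^[n J] ⁻¹' {x | (k : ℝ) < |χ x|}) := by
    filter_upwards [htel (n J)] with x hx
    by_contra hcon
    simp only [Set.mem_union, Set.mem_ofPred_eq, Set.mem_preimage, not_or, not_lt, not_le] at hcon
    obtain ⟨h1, h2, h3⟩ := hcon
    rw [hx] at h1
    have h4 : |χ (f^[n J] x) - χ x| ≤ |χ (f^[n J] x)| + |χ x| := abs_sub _ _
    linarith
  have h1 : (1 : ENNReal) ≤ μ ({x | |birkhoff f g (n J) x| ≤ 1 * Real.sqrt (n J)} ∪
      ({x | (k : ℝ) < |χ x|} ∪ f^[n J] ⁻¹' {x | (k : ℝ) < |χ x|})) := by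
    rw [← measure_univ (μ := μ)]
    exact measure_mono_ae (by filter_upwards [hcov] with x hx _ using hx)
  have h2 : μ (f^[n J] ⁻¹' {x | (k : ℝ) < |χ x|}) = μ {x | (k : ℝ) < |χ x|} :=
    (hμ.2.iterate (n J)).measure_preimage (hnull k)
  have h3 : (1 : ENNReal) ≤ 1 / 8 + (1 / 8 + 1 / 8) := by
    refine h1.trans ((measure_union_le _ _).trans (add_le_add hJ2 ?_))
    refine (measure_union_le _ _).trans (add_le_add hk ?_)
    rw [h2]
    exact hk
  have h4 : (1 : ENNReal) / 8 + (1 / 8 + 1 / 8) < 1 := by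
    have h5 : (1 : ENNReal) / 8 + (1 / 8 + 1 / 8) = ENNReal.ofReal (3 / 8) := by
      have h6 : (1 : ENNReal) / 8 = ENNReal.ofReal (1 / 8) := by
        rw [ENNReal.ofReal_div_of_pos (by norm_num)]
        simp
      rw [h6, ← ENNReal.ofReal_add (by norm_num) (by norm_num),
        ← ENNReal.ofReal_add (by norm_num) (by norm_num)]
      norm_num
    rw [h5, ← ENNReal.ofReal_one]
    exact (ENNReal.ofReal_lt_ofReal_iff (by norm_num)).2 (by norm_num)
  exact absurd h3 (not_le.2 h4)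

/-- The large deviation property fails for some complex Henon map, some weight with exactly one
equilibrium state and some Hölder observable of mean zero that is not a coboundary. The weight can
be taken Hölder continuous. -/
theorem result : ¬ ∀ f : ℂ × ℂ → ℂ × ℂ, IsComplexHenon f → ∀ φ : ℂ × ℂ → ℝ, Continuous φ →
    IsHolder φ → ∀ μ : Measure (ℂ × ℂ), IsEquilibriumState f φ μ →
      (∀ ν : Measure (ℂ × ℂ), IsEquilibriumState f φ ν → ν = μ) →
      ∀ g : ℂ × ℂ → ℝ, IsHolder g → ∫ x, g x ∂μ = 0 → ¬ IsCoboundary f μ g →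
        SatisfiesLDP f μ g := by
  intro hall
  obtain ⟨M, g, n, he, hu, hg, hmean, hn, hesc, hunif⟩ := siegel_summary
  have hw : IsHolder (wgt M ∘ Prod.swap) := isHolder_comp_swap (isHolder_wgt M)
  have hmap : ∀ A : Set (ℂ × ℂ), (muT.map Prod.swap) A = muT (Prod.swap ⁻¹' A) := fun A =>
    swap_measurableEmbedding.map_apply _ _
  have hmean' : ∫ x, (g ∘ Prod.swap) x ∂(muT.map Prod.swap) = 0 := by
    rw [swap_measurableEmbedding.integral_map]
    simpa using hmean
  have hnc : ¬ IsCoboundary (conj mapS) (muT.map Prod.swap) (g ∘ Prod.swap) := by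
    apply not_coboundary (isInvariantProb_map_swap muT_inv) n hn
    refine (hesc 1).congr ?_
    intro J
    rw [hmap]
    congr 1
    ext x
    simp only [Set.mem_preimage, Set.mem_ofPred_eq, birkhoff_conj, Prod.swap_swap]
  obtain ⟨r, c, hr, _, _, _, ε₀, hε₀, hlim⟩ := hall (conj mapS) conj_mapS_henon _
    (isHolder_continuous hw) hw _ (isEquilibriumState_conj he) (unique_conj hu) _
    (isHolder_comp_swap hg) hmean' hnc
  have h1 := hlim (ε₀ / 2) (by positivity) (by linarith)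
  have h2 : Tendsto (fun m : ℕ => ENNReal.log ((muT.map Prod.swap)
      {x | ε₀ / 2 < birkhoff (conj mapS) (g ∘ Prod.swap) m x / m}) / (m : EReal)) atTop
      (𝓝 (⊥ : EReal)) := by
    apply tendsto_const_nhds.congr'
    filter_upwards [hunif (ε₀ / 2) (by positivity), eventually_gt_atTop 0] with m hm hm0
    have h3 : (muT.map Prod.swap) {x | ε₀ / 2 < birkhoff (conj mapS) (g ∘ Prod.swap) m x / m} = 0 := by
      rw [hmap, ← hm]
      congr 1
      ext x
      simp only [Set.mem_preimage, Set.mem_ofPred_eq, birkhoff_conj, Prod.swap_swap]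
    rw [h3, ENNReal.log_zero, EReal.bot_div_of_pos_ne_top]
    · exact_mod_cast hm0
    · exact EReal.natCast_ne_top m
  have h3 := tendsto_nhds_unique h1 h2
  exact EReal.coe_ne_bot _ h3

end Pool.Agent.Results.MP_3779a0_an.SiegelLDP
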